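import Mathlib
import Pool.Agent.U739.Mp2f.Top

/-!
# Strict positivity does not suffice for sums of squares (Q2)

With `a = p₃² p₈`, `b = p₅² p₄`, `e = p₁₄` the symmetric function
`f = a² b + a b² + e³ - a b e` of degree `42` is strictly positive on the unit sphere of `ℓ²`, but
for no `k` is `p₂ᵏ f` an any-dimensional sum of squares. The same holds for `p_(2m) f`, `m ≥ 1`.
-/

set_option autoImplicit false

open MvPolynomial

namespace Pool.Agent.Results.MP_2f3180_ag.SumsOfSquaresFail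

/-- The truncated power sum `X_1 ^ k + ... + X_n ^ k`. -/
noncomputable def powerSum (n k : ℕ) : MvPolynomial (Fin n) ℝ := ∑ i, X i ^ k

/-- The truncation to `n` variables of the symmetric function `g(p_1, p_2, ...)`, for a polynomial
`g` in variables indexed by `ℕ` (the variable with index `j` stands for the power sum `p_j`). -/
noncomputable def truncation (n : ℕ) (g : MvPolynomial ℕ ℝ) : MvPolynomial (Fin n) ℝ :=
  aeval (powerSum n) g

/-- The value `g(p_1(x), p_2(x), ...)` of the symmetric function at a sequence `x`, where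
`p_j(x) = ∑ x_i ^ j`. -/
noncomputable def value (g : MvPolynomial ℕ ℝ) (x : ℕ → ℝ) : ℝ :=
  eval (fun j => ∑' i, x i ^ j) g

/-- `x` is a square summable sequence with `p_2(x) = 1`. -/
def InSphere (x : ℕ → ℝ) : Prop :=
  Summable (fun i => x i ^ 2) ∧ ∑' i, x i ^ 2 = 1

/-- `a² b + a b² + e³ - a b e` with `a = p₃² p₈`, `b = p₅² p₄`, `e = p₁₄`. -/
noncomputable def g₀ : MvPolynomial ℕ ℝ :=
  (X 3 ^ 2 * X 8) ^ 2 * (X 5 ^ 2 * X 4) + (X 3 ^ 2 * X 8) * (X 5 ^ 2 * X 4) ^ 2 + X 14 ^ 3 -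
    (X 3 ^ 2 * X 8) * (X 5 ^ 2 * X 4) * X 14

/-- the extra factor `p_(2m)` -/
noncomputable def fac (m : ℕ) : MvPolynomial ℕ ℝ := if m = 0 then 1 else X (2 * m)

theorem abs_le_one {x : ℕ → ℝ} (hx : InSphere x) (i : ℕ) : x i ^ 2 ≤ 1 := by
  rw [← hx.2]
  exact hx.1.le_tsum i (fun j _ => sq_nonneg _)

theorem summable_pow {x : ℕ → ℝ} (hx : InSphere x) {m : ℕ} (hm : m ≠ 0) :
    Summable fun i => x i ^ (2 * m) := by
  obtain ⟨j, rfl⟩ := Nat.exists_eq_succ_of_ne_zero hm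
  refine Summable.of_nonneg_of_le (fun i => ?_) (fun i => ?_) hx.1
  · rw [pow_mul]; positivity
  · rw [pow_mul, pow_succ]
    have h1 := abs_le_one hx i
    have h2 : (x i ^ 2) ^ j ≤ 1 := pow_le_one₀ (sq_nonneg _) h1
    nlinarith [sq_nonneg (x i)]

theorem tsum_even_pos {x : ℕ → ℝ} (hx : InSphere x) {m : ℕ} (hm : m ≠ 0) :
    0 < ∑' i, x i ^ (2 * m) := by
  obtain ⟨i, hi⟩ : ∃ i, x i ≠ 0 := by
    by_contra hcon
    push Not at hcon
    have := hx.2
    simp [hcon] at this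
  exact (summable_pow hx hm).tsum_pos (fun j => by rw [pow_mul]; positivity) i
    (by rw [pow_mul]; positivity)

theorem ineq {a b e : ℝ} (ha : 0 ≤ a) (hb : 0 ≤ b) (he : 0 < e) :
    0 < a ^ 2 * b + a * b ^ 2 + e ^ 3 - a * b * e := by
  have hab : 0 ≤ a * b := mul_nonneg ha hb
  have he3 : 0 < e ^ 3 := by positivity
  rcases le_or_gt e (a + b) with h | h
  · nlinarith [mul_nonneg hab (sub_nonneg.2 h)]
  · have h1 : a * b ≤ e ^ 2 / 4 := by nlinarith [sq_nonneg (a - b)]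
    have h2 : a * b * (e - (a + b)) ≤ e ^ 2 / 4 * e :=
      mul_le_mul h1 (by linarith) (by linarith) (by positivity)
    nlinarith

theorem value_g₀_pos {x : ℕ → ℝ} (hx : InSphere x) : 0 < value g₀ x := by
  have h8 : 0 ≤ ∑' i, x i ^ 8 := (tsum_even_pos hx (m := 4) (by norm_num)).le
  have h4 : 0 ≤ ∑' i, x i ^ 4 := (tsum_even_pos hx (m := 2) (by norm_num)).le
  have h14 : 0 < ∑' i, x i ^ 14 := tsum_even_pos hx (m := 7) (by norm_num)
  have h := ineq (mul_nonneg (sq_nonneg (∑' i, x i ^ 3)) h8)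
    (mul_nonneg (sq_nonneg (∑' i, x i ^ 5)) h4) h14
  simpa [value, g₀] using h

theorem value_fac_pos {x : ℕ → ℝ} (hx : InSphere x) (m : ℕ) : 0 < value (fac m) x := by
  unfold fac
  split_ifs with hm
  · simp [value]
  · have := tsum_even_pos hx hm
    simpa [value] using this

theorem value_pos {x : ℕ → ℝ} (hx : InSphere x) (m : ℕ) : 0 < value (fac m * g₀) x := by
  have h1 : value (fac m * g₀) x = value (fac m) x * value g₀ x := by simp [value]
  rw [h1]
  exact mul_pos (value_fac_pos hx m) (value_g₀_pos hx)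

theorem homogeneous (m : ℕ) :
    (fac m * g₀).IsWeightedHomogeneous (id : ℕ → ℕ) (2 * m + 42) := by
  have hX : ∀ j : ℕ, (X j : MvPolynomial ℕ ℝ).IsWeightedHomogeneous (id : ℕ → ℕ) j :=
    fun j => isWeightedHomogeneous_X ℝ (id : ℕ → ℕ) j
  have hA := ((hX 3).pow 2).mul (hX 8)
  have hB := ((hX 5).pow 2).mul (hX 4)
  have h1 := (hA.pow 2).mul hB
  have h2 := hA.mul (hB.pow 2)
  have h3 := (hX 14).pow 3
  have h4 := (hA.mul hB).mul (hX 14)
  have hg : g₀.IsWeightedHomogeneous (id : ℕ → ℕ) 42 := ((h1.add h2).add h3).sub h4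
  refine IsWeightedHomogeneous.mul ?_ hg
  unfold fac
  split_ifs with hm
  · subst hm
    exact isWeightedHomogeneous_one ℝ _
  · exact hX _

theorem vars_g₀ : g₀.vars ⊆ {3, 8, 5, 4, 14} := by
  have hA : (X 3 ^ 2 * X 8 : MvPolynomial ℕ ℝ).vars ⊆ {3, 8, 5, 4, 14} := by
    refine (vars_mul _ _).trans (Finset.union_subset ((vars_pow _ _).trans ?_) ?_) <;>
    rw [vars_X] <;> decide
  have hB : (X 5 ^ 2 * X 4 : MvPolynomial ℕ ℝ).vars ⊆ {3, 8, 5, 4, 14} := by
    refine (vars_mul _ _).trans (Finset.union_subset ((vars_pow _ _).trans ?_) ?_) <;>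
    rw [vars_X] <;> decide
  have hE : (X 14 : MvPolynomial ℕ ℝ).vars ⊆ {3, 8, 5, 4, 14} := by
    rw [vars_X]; decide
  unfold g₀
  refine (vars_sub_subset _).trans (Finset.union_subset ((vars_add_subset _ _).trans
    (Finset.union_subset ((vars_add_subset _ _).trans (Finset.union_subset ?_ ?_)) ?_)) ?_)
  · exact (vars_mul _ _).trans (Finset.union_subset ((vars_pow _ _).trans hA) hB)
  · exact (vars_mul _ _).trans (Finset.union_subset hA ((vars_pow _ _).trans hB))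
  · exact (vars_pow _ _).trans hE
  · exact (vars_mul _ _).trans (Finset.union_subset ((vars_mul _ _).trans
      (Finset.union_subset hA hB)) hE)

theorem vars_bound (m : ℕ) : ∀ j ∈ (fac m * g₀).vars, 2 ≤ j ∧ j ≤ 2 * m + 42 := by
  intro j hj
  rcases Finset.mem_union.1 (vars_mul _ _ hj) with h | h
  · unfold fac at h
    split_ifs at h with hm
    · rw [vars_one] at h
      exact absurd h (Finset.notMem_empty _)
    · rw [vars_X, Finset.mem_singleton] at h
      omega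
  · have h2 := vars_g₀ h
    fin_cases h2 <;> constructor <;> omega

open Pool.Agent.U739.Mp2f

/-- the coordinates -/
noncomputable def x₁ : MvPolynomial (Fin 2) ℝ := C (4 / 9) * X 0 - C (1 / 15) * X 1

noncomputable def x₂ : MvPolynomial (Fin 2) ℝ := C (1 / 120) * X 1 - C (1 / 72) * X 0

/-- the image of `g₀` -/
noncomputable def G : Polynomial (MvPolynomial (Fin 2) ℝ) :=
  (P x₁ x₂ 3 ^ 2 * P x₁ x₂ 8) ^ 2 * (P x₁ x₂ 5 ^ 2 * P x₁ x₂ 4) +
    (P x₁ x₂ 3 ^ 2 * P x₁ x₂ 8) * (P x₁ x₂ 5 ^ 2 * P x₁ x₂ 4) ^ 2 + P x₁ x₂ 14 ^ 3 -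
    (P x₁ x₂ 3 ^ 2 * P x₁ x₂ 8) * (P x₁ x₂ 5 ^ 2 * P x₁ x₂ 4) * P x₁ x₂ 14

/-- the limit polynomial -/
noncomputable def M : MvPolynomial (Fin 2) ℝ :=
  C (514 ^ 2 * 34) * (X 0 ^ 4 * X 1 ^ 2) + C (514 * 34 ^ 2) * (X 0 ^ 2 * X 1 ^ 4) +
    C (32770 ^ 3) * (X 0 ^ 0 * X 1 ^ 0) - C (514 * 34 * 32770) * (X 0 ^ 2 * X 1 ^ 2)

theorem top_G : Top G 45 M := by
  have t3 : Top (P x₁ x₂ 3) 3 (X 0) := (top_P3 x₁ x₂).congr rfl (by
    unfold x₁ x₂
    have e1 : (C (4 / 9) : MvPolynomial (Fin 2) ℝ) * 3 - 24 * C (1 / 72) = 1 := by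
      rw [show (3 : MvPolynomial (Fin 2) ℝ) = C 3 from (map_ofNat C 3).symm,
        show (24 : MvPolynomial (Fin 2) ℝ) = C 24 from (map_ofNat C 24).symm, ← C_mul, ← C_mul, ← C_sub]
      norm_num
    have e2 : (C (1 / 15) : MvPolynomial (Fin 2) ℝ) * 3 - 24 * C (1 / 120) = 0 := by
      rw [show (3 : MvPolynomial (Fin 2) ℝ) = C 3 from (map_ofNat C 3).symm,
        show (24 : MvPolynomial (Fin 2) ℝ) = C 24 from (map_ofNat C 24).symm, ← C_mul, ← C_mul, ← C_sub]
      norm_num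
    linear_combination X 0 * e1 - X 1 * e2)
  have t5 : Top (P x₁ x₂ 5) 5 (X 1) := (top_P5 x₁ x₂).congr rfl (by
    unfold x₁ x₂
    have e1 : (C (4 / 9) : MvPolynomial (Fin 2) ℝ) * 5 - 160 * C (1 / 72) = 0 := by
      rw [show (5 : MvPolynomial (Fin 2) ℝ) = C 5 from (map_ofNat C 5).symm,
        show (160 : MvPolynomial (Fin 2) ℝ) = C 160 from (map_ofNat C 160).symm, ← C_mul, ← C_mul, ← C_sub]
      norm_num
    have e2 : (C (1 / 15) : MvPolynomial (Fin 2) ℝ) * 5 - 160 * C (1 / 120) = -1 := by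
      rw [show (5 : MvPolynomial (Fin 2) ℝ) = C 5 from (map_ofNat C 5).symm,
        show (160 : MvPolynomial (Fin 2) ℝ) = C 160 from (map_ofNat C 160).symm, ← C_mul, ← C_mul, ← C_sub,
        show (-1 : MvPolynomial (Fin 2) ℝ) = C (-1) by rw [map_neg, map_one]]
      norm_num
    linear_combination X 0 * e1 - X 1 * e2)
  have t8 := top_P_even x₁ x₂ (j := 8) (by decide) (by norm_num)
  have t4 := top_P_even x₁ x₂ (j := 4) (by decide) (by norm_num)
  have t14 := top_P_even x₁ x₂ (j := 14) (by decide) (by norm_num)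
  have tA := (t3.pow 2).mul t8
  have tB := (t5.pow 2).mul t4
  have h1 := (tA.pow 2).mul tB
  have h2 := tA.mul (tB.pow 2)
  have h3 := t14.pow 3
  have h4 := (tA.mul tB).mul t14
  refine (((h1.add h2).add h3).sub h4).congr rfl ?_
  unfold M
  simp only [map_mul, map_pow, map_ofNat]
  norm_num
  ring

theorem Lam_C_mul (c : ℝ) (p : MvPolynomial (Fin 2) ℝ) : Lam (C c * p) = c * Lam p := by
  rw [C_mul', map_smul, smul_eq_mul]

theorem Lam_xy (a b : ℕ) : Lam (X 0 ^ a * X 1 ^ b : MvPolynomial (Fin 2) ℝ) =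
    if a % 2 = 0 ∧ b % 2 = 0 then 4 ^ phi (a / 2) (b / 2) else 0 := by
  rw [X_pow_eq_monomial, X_pow_eq_monomial, monomial_mul, Lam_monomial, one_mul, one_mul]
  have e0 : (Finsupp.single (0 : Fin 2) a + Finsupp.single 1 b : Fin 2 →₀ ℕ) 0 = a := by simp
  have e1 : (Finsupp.single (0 : Fin 2) a + Finsupp.single 1 b : Fin 2 →₀ ℕ) 1 = b := by simp
  unfold lam
  rw [e0, e1]

theorem Lam_M : Lam M < 0 := by
  unfold M
  rw [map_sub, map_add, map_add, Lam_C_mul, Lam_C_mul, Lam_C_mul, Lam_C_mul, Lam_xy, Lam_xy,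
    Lam_xy, Lam_xy]
  norm_num [phi]

theorem top_fac (m : ℕ) : ∃ (Q : Polynomial (MvPolynomial (Fin 2) ℝ)) (e : ℕ) (c : ℝ), 0 < c ∧
    Top Q e (C c) ∧ ∀ (T n : ℕ) (θ : MvPolynomial (Fin n) ℝ →ₐ[ℝ] MvPolynomial (Fin 2) ℝ),
      (∀ k, 1 ≤ k → θ (powerSum n k) = (P x₁ x₂ k).eval (T : MvPolynomial (Fin 2) ℝ)) →
      θ (truncation n (fac m)) = Q.eval (T : MvPolynomial (Fin 2) ℝ) := by
  rcases Nat.lt_or_ge m 1 with h0 | h1
  · obtain rfl : m = 0 := by omega
    refine ⟨1, 0, 1, one_pos, ⟨by simp, by simp⟩, fun T n θ _ => ?_⟩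
    simp [truncation, fac]
  · have key : ∀ (T n : ℕ) (θ : MvPolynomial (Fin n) ℝ →ₐ[ℝ] MvPolynomial (Fin 2) ℝ),
        (∀ k, 1 ≤ k → θ (powerSum n k) = (P x₁ x₂ k).eval (T : MvPolynomial (Fin 2) ℝ)) →
        θ (truncation n (fac m)) = (P x₁ x₂ (2 * m)).eval (T : MvPolynomial (Fin 2) ℝ) := by
      intro T n θ hθ
      rw [fac, if_neg (by omega), truncation, aeval_X]
      exact hθ _ (by omega)
    rcases Nat.lt_or_ge m 2 with h2 | h2
    · obtain rfl : m = 1 := by omega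
      exact ⟨P x₁ x₂ 2, 4, 2, two_pos, (top_P2 x₁ x₂).congr rfl (map_ofNat C 2).symm, key⟩
    · refine ⟨P x₁ x₂ (2 * m), 2 * m + 1, 2 + 2 * 2 ^ (2 * m), by positivity,
        (top_P_even x₁ x₂ (even_two_mul m) (by omega)).congr rfl ?_, key⟩
      rw [map_add, map_mul, map_pow, map_ofNat]

theorem no_certificate (m k : ℕ) :
    ∃ n₀ : ℕ, ∀ n ≥ n₀, ¬ IsSumSq (truncation n (X 2 ^ k * (fac m * g₀))) := by
  obtain ⟨Q, e, c, hc, hQ, hQθ⟩ := top_fac m
  have tF := ((top_P2 x₁ x₂).pow k).mul (hQ.mul top_G)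
  have hneg : Lam (2 ^ k * (C c * M)) < 0 := by
    have : (2 ^ k * (C c * M) : MvPolynomial (Fin 2) ℝ) = C (2 ^ k) * (C c * M) := by
      rw [map_pow, map_ofNat]
    rw [this, Lam_C_mul, Lam_C_mul]
    exact mul_neg_of_pos_of_neg (by positivity) (mul_neg_of_pos_of_neg hc Lam_M)
  by_contra hcon
  push Not at hcon
  refine absurd (limit_nonneg Lam tF fun T _ => ?_) (not_le.2 hneg)
  obtain ⟨n, hn, hs⟩ := hcon (Fintype.card (Idx T))
  obtain ⟨θ, hθ⟩ := exists_hom (conf x₁ x₂ T) hn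
  have hθ' : ∀ k, 1 ≤ k →
      θ (powerSum n k) = (P x₁ x₂ k).eval (T : MvPolynomial (Fin 2) ℝ) := by
    intro k hk
    rw [powerSum, hθ k hk, sum_conf]
  have h1 := isSumSq_map (θ : MvPolynomial (Fin n) ℝ →+* MvPolynomial (Fin 2) ℝ) hs
  have h2 : θ (truncation n (X 2 ^ k * (fac m * g₀))) =
      (P x₁ x₂ 2 ^ k * (Q * G)).eval (T : MvPolynomial (Fin 2) ℝ) := by
    have e1 : truncation n (X 2 ^ k * (fac m * g₀)) =
        powerSum n 2 ^ k * (truncation n (fac m) * truncation n g₀) := by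
      simp [truncation]
    have e2 : truncation n g₀ = (powerSum n 3 ^ 2 * powerSum n 8) ^ 2 *
        (powerSum n 5 ^ 2 * powerSum n 4) + (powerSum n 3 ^ 2 * powerSum n 8) *
        (powerSum n 5 ^ 2 * powerSum n 4) ^ 2 + powerSum n 14 ^ 3 -
        (powerSum n 3 ^ 2 * powerSum n 8) * (powerSum n 5 ^ 2 * powerSum n 4) *
        powerSum n 14 := by
      simp [truncation, g₀]
    rw [e1, e2, G]
    simp only [map_mul, map_add, map_sub, map_pow, hQθ T n θ hθ', hθ' 2 (by norm_num),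
      hθ' 3 (by norm_num), hθ' 4 (by norm_num), hθ' 5 (by norm_num), hθ' 8 (by norm_num),
      hθ' 14 (by norm_num), Polynomial.eval_mul, Polynomial.eval_add, Polynomial.eval_sub,
      Polynomial.eval_pow]
  have h3 : IsSumSq (θ (truncation n (X 2 ^ k * (fac m * g₀)))) := h1
  rw [h2] at h3
  exact Lam_isSumSq h3

/-- Q2 has a negative answer in every degree `2 d ≥ 42`: there is a symmetric function
`g ∈ ℝ[p_2, ..., p_(2d)]`, homogeneous of degree `2 d` and strictly positive on the unit sphere of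
`ℓ²`, such that for every `k` the truncation of `p_2 ^ k g` to `n` variables is not a sum of
squares of polynomials once `n` is large enough. -/
theorem result (d : ℕ) (hd : 21 ≤ d) : ∃ g : MvPolynomial ℕ ℝ,
    (∀ j ∈ g.vars, 2 ≤ j ∧ j ≤ 2 * d) ∧ g.IsWeightedHomogeneous (id : ℕ → ℕ) (2 * d) ∧
    (∀ x, InSphere x → 0 < value g x) ∧
    ∀ k : ℕ, ∃ n₀ : ℕ, ∀ n ≥ n₀, ¬ IsSumSq (truncation n (X 2 ^ k * g)) := by
  obtain ⟨m, rfl⟩ := Nat.exists_eq_add_of_le hd
  refine ⟨fac m * g₀, fun j hj => ?_, ?_, fun x hx => value_pos hx m, no_certificate m⟩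
  · have := vars_bound m j hj
    omega
  · have h := homogeneous m
    rwa [show 2 * m + 42 = 2 * (21 + m) by ring] at h

end Pool.Agent.Results.MP_2f3180_ag.SumsOfSquaresFail
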